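import Pool.Agent.helper8.GD.Spec
import Pool.Agent.helper74.TG.SW

/-!
# gd:BV4, small conductors
-/

set_option autoImplicit false

namespace GD

open Finset ArithmeticFunction
open Pool.Agent.helper74.TG (psi_char psi_pnt)

/-- powers of the logarithm are small -/
lemma BV4_logpow (A : ℕ) (c : ℝ) (hc : 0 < c) : ∃ x₀ : ℕ, ∀ x : ℕ, x₀ ≤ x →
    Real.log x ^ A ≤ c * x := by
  have h1 := (isLittleO_log_rpow_rpow_atTop (A : ℝ) (show (0 : ℝ) < 1 by norm_num)).bound hc
  obtain ⟨x₀, h⟩ := Filter.eventually_atTop.1 h1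
  refine ⟨max ⌈x₀⌉₊ 1, fun x hx => ?_⟩
  have hx1 : (1 : ℝ) ≤ x := by exact_mod_cast (le_max_right _ _).trans hx
  have hx0 : x₀ ≤ x := (Nat.le_ceil _).trans (by exact_mod_cast (le_max_left _ _).trans hx)
  have := h x hx0
  rw [Real.norm_of_nonneg (Real.rpow_nonneg (Real.log_nonneg hx1) _), Real.rpow_one,
    Real.norm_of_nonneg (by linarith), Real.rpow_natCast] at this
  exact this

lemma BV4_omega {m : ℕ} (hm : 0 < m) : #m.primeFactors ≤ Nat.log 2 m := by
  apply Nat.le_log_of_pow_le (by norm_num)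
  calc 2 ^ #m.primeFactors = ∏ _p ∈ m.primeFactors, 2 := by rw [prod_const]
    _ ≤ ∏ p ∈ m.primeFactors, p :=
        prod_le_prod' fun p hp => (Nat.prime_of_mem_primeFactors hp).two_le
    _ ≤ m := Nat.le_of_dvd hm (Nat.prod_primeFactors_dvd m)

lemma BV4_natlog {u : ℕ} (hu : 0 < u) : (Nat.log 2 u : ℝ) ≤ 2 * Real.log u := by
  have h4 : (Nat.log 2 u : ℝ) * Real.log 2 ≤ Real.log u := by
    rw [← Real.log_pow]
    apply Real.log_le_log (by positivity)
    exact_mod_cast Nat.pow_log_le_self 2 hu.ne'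
  have h5 := Real.log_two_gt_d9
  have h6 : (0 : ℝ) ≤ Nat.log 2 u := Nat.cast_nonneg _
  nlinarith

/-- The contribution of the prime powers not prime to `m`. -/
lemma BV4_noncoprime (m u : ℕ) (hm : 0 < m) (hu : 0 < u) :
    ∑ n ∈ Ioc 0 u with ¬ Nat.Coprime n m, vonMangoldt n ≤
      (2 * Real.log m) * (2 * Real.log u + 1) * Real.log u := by
  classical
  have hlogu : 0 ≤ Real.log u := Real.log_natCast_nonneg u
  have hlogm : 0 ≤ Real.log m := Real.log_natCast_nonneg m
  set T : Finset ℕ := (m.primeFactors ×ˢ range (Nat.log 2 u + 1)).image (fun p => p.1 ^ p.2) with hT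
  have hcard : (T.card : ℝ) ≤ (2 * Real.log m) * (2 * Real.log u + 1) := by
    have h1 : T.card ≤ m.primeFactors.card * (Nat.log 2 u + 1) := by
      refine card_image_le.trans ?_
      rw [card_product, card_range]
    have h2 : (m.primeFactors.card : ℝ) ≤ 2 * Real.log m := by
      refine le_trans ?_ (BV4_natlog hm)
      exact_mod_cast BV4_omega hm
    have h3 := BV4_natlog hu
    calc (T.card : ℝ) ≤ ((m.primeFactors.card * (Nat.log 2 u + 1) : ℕ) : ℝ) := by exact_mod_cast h1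
      _ = m.primeFactors.card * (Nat.log 2 u + 1 : ℝ) := by push_cast; ring
      _ ≤ (2 * Real.log m) * (2 * Real.log u + 1) := by gcongr
  have hsub : ∀ n ∈ (Ioc 0 u).filter (fun n => ¬ Nat.Coprime n m), n ∉ T → vonMangoldt n = 0 := by
    intro n hn hnT
    rw [mem_filter, mem_Ioc] at hn
    by_contra hne
    rw [← ne_eq, vonMangoldt_ne_zero_iff] at hne
    obtain ⟨p, k, hp, hk, rfl⟩ := (isPrimePow_nat_iff _).1 hne
    apply hnT
    rw [hT, mem_image]
    refine ⟨(p, k), ?_, rfl⟩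
    rw [mem_product, Nat.mem_primeFactors, mem_range]
    refine ⟨⟨hp, ?_, hm.ne'⟩, ?_⟩
    · by_contra hd
      apply hn.2
      exact Nat.Coprime.pow_left _ ((Nat.Prime.coprime_iff_not_dvd hp).2 hd)
    · rw [Nat.lt_succ_iff]
      apply Nat.le_log_of_pow_le (by norm_num)
      exact (Nat.pow_le_pow_left hp.two_le k).trans hn.1.2
  calc ∑ n ∈ Ioc 0 u with ¬ Nat.Coprime n m, vonMangoldt n
      = ∑ n ∈ (Ioc 0 u).filter (fun n => ¬ Nat.Coprime n m) with n ∈ T, vonMangoldt n := by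
        symm
        apply sum_filter_of_ne
        intro n hn hne
        by_contra h
        exact hne (hsub n hn h)
    _ ≤ ∑ n ∈ (Ioc 0 u).filter (fun n => ¬ Nat.Coprime n m) with n ∈ T, Real.log u := by
        apply sum_le_sum
        intro n hn
        rw [mem_filter, mem_filter, mem_Ioc] at hn
        refine vonMangoldt_le_log.trans (Real.log_le_log ?_ ?_)
        · exact_mod_cast hn.1.1.1
        · exact_mod_cast hn.1.1.2
    _ ≤ (T.card : ℝ) * Real.log u := by
        rw [sum_const, nsmul_eq_mul]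
        apply mul_le_mul_of_nonneg_right _ hlogu
        exact_mod_cast card_le_card (fun n hn => (mem_filter.1 hn).2)
    _ ≤ _ := by gcongr

open Classical in
/-- the number of characters of small conductor -/
lemma BV4_card (m R : ℕ) (hm : 0 < m) :
    #((univ : Finset (DirichletCharacter ℂ m)).filter fun χ => χ.conductor ≤ R) ≤ R * R := by
  have : NeZero m := ⟨hm.ne'⟩
  set T : Finset (Σ r : ℕ, DirichletCharacter ℂ r) :=
    (Icc 1 R).sigma (fun r => (univ : Finset (DirichletCharacter ℂ r))) with hT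
  set g : DirichletCharacter ℂ m → (Σ r : ℕ, DirichletCharacter ℂ r) :=
    fun χ => ⟨χ.conductor, χ.primitiveCharacter⟩ with hg
  have hinj : Function.Injective g := by
    have hleft : ∀ χ : DirichletCharacter ℂ m,
        (fun i : (Σ r : ℕ, DirichletCharacter ℂ r) =>
          if h : i.1 ∣ m then DirichletCharacter.changeLevel h i.2 else 1) (g χ) = χ := by
      intro χ
      simp only [hg]
      rw [dif_pos χ.conductor_dvd_level]
      exact χ.changeLevel_primitiveCharacter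
    intro χ χ' h
    rw [← hleft χ, ← hleft χ', h]
  have h1 : #((univ : Finset (DirichletCharacter ℂ m)).filter fun χ => χ.conductor ≤ R) ≤ #T := by
    refine card_le_card_of_injOn g ?_ (hinj.injOn)
    intro χ hχ
    have hχ' : χ.conductor ≤ R := (mem_filter.1 (mem_coe.1 hχ)).2
    rw [mem_coe, hT, mem_sigma, mem_Icc]
    have h4 : χ.conductor ≠ 0 := DirichletCharacter.conductor_ne_zero χ
    exact ⟨⟨Nat.one_le_iff_ne_zero.2 h4, hχ'⟩, mem_univ _⟩
  refine h1.trans ?_
  rw [hT, card_sigma]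
  calc ∑ r ∈ Icc 1 R, #(univ : Finset (DirichletCharacter ℂ r)) ≤ ∑ r ∈ Icc 1 R, R := by
        apply sum_le_sum
        intro r hr
        rw [mem_Icc] at hr
        have : NeZero r := ⟨by omega⟩
        rw [card_univ, ← Nat.card_eq_fintype_card,
          DirichletCharacter.card_eq_totient_of_hasEnoughRootsOfUnity]
        exact (Nat.totient_le r).trans hr.2
    _ = R * R := by rw [sum_const, Nat.card_Icc, smul_eq_mul]; simp

/-- passing to the primitive character -/
lemma BV4_prim (m t : ℕ) (χ : DirichletCharacter ℂ m) :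
    ‖∑ n ∈ Ioc 0 t, (vonMangoldt n : ℂ) * χ n‖ ≤
      ‖∑ n ∈ Ioc 0 t, (vonMangoldt n : ℂ) * χ.primitiveCharacter n‖ +
        ∑ n ∈ Ioc 0 t with ¬ Nat.Coprime n m, vonMangoldt n := by
  have h1 : ∑ n ∈ Ioc 0 t, (vonMangoldt n : ℂ) * χ n =
      ∑ n ∈ Ioc 0 t, (vonMangoldt n : ℂ) * χ.primitiveCharacter n -
        ∑ n ∈ Ioc 0 t with ¬ Nat.Coprime n m, (vonMangoldt n : ℂ) * χ.primitiveCharacter n := by
    rw [sum_filter, ← sum_sub_distrib]
    refine sum_congr rfl fun n _ => ?_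
    by_cases hn : Nat.Coprime n m
    · have h2 := χ.primitiveCharacter_apply_of_isCoprime (a := (n : ℤ))
        (Nat.isCoprime_iff_coprime.mpr hn)
      push_cast at h2
      rw [if_neg (by simpa using hn), sub_zero, h2]
    · rw [if_pos hn, sub_self, MulChar.map_nonunit _ (fun h => hn
        ((ZMod.isUnit_iff_coprime n m).1 h)), mul_zero]
  rw [h1]
  refine (norm_sub_le _ _).trans (add_le_add le_rfl ?_)
  refine (norm_sum_le _ _).trans (sum_le_sum fun n _ => ?_)
  rw [norm_mul, Complex.norm_real, Real.norm_of_nonneg vonMangoldt_nonneg]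
  exact mul_le_of_le_one_right vonMangoldt_nonneg (DirichletCharacter.norm_le_one _ _)

/-- the principal character -/
lemma BV4_one (m t : ℕ) :
    ∑ n ∈ Ioc 0 t, (vonMangoldt n : ℂ) * (1 : DirichletCharacter ℂ m) n =
      ((∑ n ∈ Ioc 0 t, vonMangoldt n - ∑ n ∈ Ioc 0 t with ¬ Nat.Coprime n m,
        vonMangoldt n : ℝ) : ℂ) := by
  rw [sum_filter, ← sum_sub_distrib]
  push_cast
  apply sum_congr rfl
  intro n _
  by_cases hn : Nat.Coprime n m
  · rw [MulChar.one_apply ((ZMod.isUnit_iff_coprime n m).2 hn), if_neg (by simpa using hn)]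
    simp
  · rw [MulChar.map_nonunit _ (fun h => hn ((ZMod.isUnit_iff_coprime n m).1 h)), if_pos hn]
    simp

/-- trivial bound -/
lemma BV4_triv (t : ℕ) : ∑ n ∈ Ioc 0 t, vonMangoldt n ≤ t * Real.log t := by
  calc ∑ n ∈ Ioc 0 t, vonMangoldt n ≤ ∑ n ∈ Ioc 0 t, Real.log t := by
        apply sum_le_sum
        intro n hn
        rw [mem_Ioc] at hn
        refine vonMangoldt_le_log.trans (Real.log_le_log ?_ ?_)
        · exact_mod_cast hn.1
        · exact_mod_cast hn.2
    _ = t * Real.log t := by rw [sum_const, Nat.card_Ioc, nsmul_eq_mul]; simp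

open Classical in
/-- reduction to the single characters -/
lemma BV4_red (t m c R : ℕ) (hm : 0 < m) (hc : Nat.Coprime c m) (hR : 1 ≤ R) (ε : ℝ)
    (hε : ∀ χ : DirichletCharacter ℂ m, χ.conductor ≤ R →
      ‖∑ n ∈ Ioc 0 t, (vonMangoldt n : ℂ) * χ n - (if χ = 1 then (t : ℂ) else 0)‖ ≤ ε) :
    |∑ n ∈ Ioc 0 t, vonMangoldt n * ks R m c n - t / (Nat.totient m : ℝ)| ≤
      (1 / (Nat.totient m : ℝ)) * ((R * R : ℕ) * ε) := by
  have : NeZero m := ⟨hm.ne'⟩
  have hφ : 0 < Nat.totient m := Nat.totient_pos.2 hm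
  have hφ0 : (0 : ℝ) < Nat.totient m := by exact_mod_cast hφ
  set F := (univ : Finset (DirichletCharacter ℂ m)).filter fun χ => χ.conductor ≤ R with hF
  have hε0 : 0 ≤ ε := by
    refine (norm_nonneg _).trans (hε 1 ?_)
    rw [DirichletCharacter.eq_one_iff_conductor_eq_one.1 rfl]
    exact hR
  have h1F : (1 : DirichletCharacter ℂ m) ∈ F := by
    rw [hF, mem_filter]
    refine ⟨mem_univ _, ?_⟩
    rw [DirichletCharacter.eq_one_iff_conductor_eq_one.1 rfl]
    exact hR
  have key : ∑ n ∈ Ioc 0 t, vonMangoldt n * ks R m c n - t / (Nat.totient m : ℝ) =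
      (1 / (Nat.totient m : ℝ)) * (∑ χ ∈ F, (starRingEnd ℂ) (χ c) *
        (∑ n ∈ Ioc 0 t, (vonMangoldt n : ℂ) * χ n - (if χ = 1 then (t : ℂ) else 0))).re := by
    have e1 : ∑ χ ∈ F, (starRingEnd ℂ) (χ c) * (if χ = 1 then (t : ℂ) else 0) = t := by
      rw [sum_eq_single_of_mem 1 h1F (fun χ _ hχ => by rw [if_neg hχ, mul_zero]), if_pos rfl,
        MulChar.one_apply ((ZMod.isUnit_iff_coprime c m).2 hc), map_one, one_mul]
    have e2 : ∑ n ∈ Ioc 0 t, vonMangoldt n * ks R m c n =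
        (1 / (Nat.totient m : ℝ)) * (∑ χ ∈ F, (starRingEnd ℂ) (χ c) *
          ∑ n ∈ Ioc 0 t, (vonMangoldt n : ℂ) * χ n).re := by
      have e3 : ∑ χ ∈ F, (starRingEnd ℂ) (χ c) * ∑ n ∈ Ioc 0 t, (vonMangoldt n : ℂ) * χ n =
          ∑ n ∈ Ioc 0 t, (vonMangoldt n : ℂ) * ∑ χ ∈ F, (starRingEnd ℂ) (χ c) * χ n := by
        simp_rw [mul_sum]
        rw [sum_comm]
        refine sum_congr rfl fun n _ => sum_congr rfl fun χ _ => ?_
        ring
      rw [e3, Complex.re_sum, mul_sum]
      refine sum_congr rfl fun n _ => ?_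
      rw [Complex.re_ofReal_mul]
      unfold ks
      ring
    simp_rw [mul_sub]
    rw [sum_sub_distrib, e1, Complex.sub_re, mul_sub, e2]
    have e4 : ((t : ℂ)).re = (t : ℝ) := Complex.natCast_re t
    rw [e4]
    ring
  rw [key, abs_mul, abs_of_nonneg (by positivity : 0 ≤ 1 / (Nat.totient m : ℝ))]
  refine mul_le_mul_of_nonneg_left ?_ (by positivity)
  refine (Complex.abs_re_le_norm _).trans ((norm_sum_le _ _).trans ?_)
  calc ∑ χ ∈ F, ‖(starRingEnd ℂ) (χ c) *
        (∑ n ∈ Ioc 0 t, (vonMangoldt n : ℂ) * χ n - (if χ = 1 then (t : ℂ) else 0))‖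
      ≤ ∑ χ ∈ F, ε := by
        apply sum_le_sum
        intro χ hχ
        rw [norm_mul, RCLike.norm_conj]
        have h1 := DirichletCharacter.norm_le_one χ (c : ZMod m)
        have h2 : ‖∑ n ∈ Ioc 0 t, (vonMangoldt n : ℂ) * χ n - (if χ = 1 then (t : ℂ) else 0)‖ ≤ ε := by
          convert hε χ (mem_filter.1 hχ).2
        calc _ ≤ 1 * ε := mul_le_mul h1 h2 (norm_nonneg _) zero_le_one
          _ = ε := one_mul _
    _ = (#F : ℝ) * ε := by rw [sum_const, nsmul_eq_mul]
    _ ≤ ((R * R : ℕ) : ℝ) * ε := by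
        apply mul_le_mul_of_nonneg_right _ hε0
        exact_mod_cast BV4_card m R hm

theorem BV4 : BV4_stmt := by
  intro A B
  obtain ⟨C₁, x₁, hC₁, h1⟩ := psi_char (A + 2 * B + 1) (B + 1)
  obtain ⟨C₂, x₂, hC₂, h2⟩ := psi_pnt (A + 2 * B + 1)
  obtain ⟨y₁, hy₁⟩ := BV4_logpow (2 * (A + 2 * B + 2)) 1 one_pos
  obtain ⟨y₂, hy₂⟩ := BV4_logpow (A + 2 * B + 2) (1 / (1 + max x₁ x₂ ^ 2)) (by positivity)
  obtain ⟨y₃, hy₃⟩ := BV4_logpow (A + 2 * B + 3) (1 / 24) (by norm_num)
  set M : ℝ := 1 + 2 ^ (B + 1) + 4 * C₁ * 2 ^ (A + 2 * B + 1) + 4 * C₂ * 2 ^ (A + 2 * B + 1) with hM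
  refine ⟨max (max y₁ y₂) (max y₃ ⌈Real.exp M⌉₊), ?_⟩
  intro X hX t ht m c R hm hmX hc hR1 hRB
  have hX1 : y₁ ≤ X := (le_max_left _ _).trans ((le_max_left _ _).trans hX)
  have hX2 : y₂ ≤ X := (le_max_right _ _).trans ((le_max_left _ _).trans hX)
  have hX3 : y₃ ≤ X := (le_max_left _ _).trans ((le_max_right _ _).trans hX)
  have hXe : Real.exp M ≤ X := (Nat.le_ceil _).trans
    (by exact_mod_cast (le_max_right _ _).trans ((le_max_right _ _).trans hX))
  have hX0 : (0 : ℝ) < X := (Real.exp_pos _).trans_le hXe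
  set L := Real.log X with hL
  have hLM : M ≤ L := by rw [hL, Real.le_log_iff_exp_le hX0]; exact hXe
  have hp1 : (0 : ℝ) < 2 ^ (B + 1) := by positivity
  have hp2 : (0 : ℝ) < C₁ * 2 ^ (A + 2 * B + 1) := by positivity
  have hp3 : (0 : ℝ) < C₂ * 2 ^ (A + 2 * B + 1) := by positivity
  have hL1 : 1 ≤ L := by rw [hM] at hLM; linarith
  have hL0 : 0 < L := by linarith
  have hLB : (2 : ℝ) ^ (B + 1) ≤ L := by rw [hM] at hLM; linarith
  have hLC1 : 4 * (C₁ * 2 ^ (A + 2 * B + 1)) ≤ L := by rw [hM] at hLM; linarith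
  have hLC2 : 4 * (C₂ * 2 ^ (A + 2 * B + 1)) ≤ L := by rw [hM] at hLM; linarith
  -- reduction
  have hfin : (1 / (Nat.totient m : ℝ)) * ((R * R : ℕ) * (X / L ^ (A + 2 * B))) ≤
      (1 / (Nat.totient m : ℝ)) * X / L ^ A := by
    rw [mul_div_assoc]
    refine mul_le_mul_of_nonneg_left ?_ (by positivity)
    have h3 : ((R * R : ℕ) : ℝ) ≤ L ^ (2 * B) := by
      push_cast
      calc (R : ℝ) * R ≤ L ^ B * L ^ B := by gcongr
        _ = L ^ (2 * B) := by rw [← pow_add]; congr 1; ring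
    calc ((R * R : ℕ) : ℝ) * (X / L ^ (A + 2 * B)) ≤ L ^ (2 * B) * (X / L ^ (A + 2 * B)) := by
          gcongr
      _ = X / L ^ A := by rw [pow_add]; field_simp
  refine (BV4_red t m c R hm hc hR1 (X / L ^ (A + 2 * B)) ?_).trans hfin
  intro χ hχ
  rcases Nat.eq_zero_or_pos t with h0 | h0
  · subst h0
    simp
    positivity
  have ht0 : (0 : ℝ) < t := by exact_mod_cast h0
  have htX : (t : ℝ) ≤ X := by exact_mod_cast ht
  have hlogt : Real.log t ≤ L := Real.log_le_log ht0 htX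
  have hlogt0 : 0 ≤ Real.log t := Real.log_natCast_nonneg t
  have hψ0 : 0 ≤ ∑ n ∈ Ioc 0 t, vonMangoldt n := sum_nonneg fun n _ => vonMangoldt_nonneg
  have hN0 : 0 ≤ ∑ n ∈ Ioc 0 t with ¬ Nat.Coprime n m, vonMangoldt n :=
    sum_nonneg fun n _ => vonMangoldt_nonneg
  have hNψ : ∑ n ∈ Ioc 0 t with ¬ Nat.Coprime n m, vonMangoldt n ≤
      ∑ n ∈ Ioc 0 t, vonMangoldt n :=
    sum_le_sum_of_subset_of_nonneg (filter_subset _ _) fun n _ _ => vonMangoldt_nonneg
  rcases lt_or_ge (t : ℝ) (X / L ^ (A + 2 * B + 2)) with hsmall | hlarge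
  · -- small `t`
    have htL : (t : ℝ) * L ≤ X / L ^ (A + 2 * B) := by
      calc (t : ℝ) * L ≤ X / L ^ (A + 2 * B + 2) * L := by gcongr
        _ = X / L ^ (A + 2 * B + 1) := by
          rw [show A + 2 * B + 2 = (A + 2 * B + 1) + 1 from rfl, pow_succ]; field_simp
        _ ≤ X / L ^ (A + 2 * B) := by
          exact div_le_div_of_nonneg_left hX0.le (by positivity)
            (pow_le_pow_right₀ hL1 (Nat.le_succ _))
    have htriv : ∑ n ∈ Ioc 0 t, vonMangoldt n ≤ t * L := (BV4_triv t).trans (by gcongr)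
    have htt : (t : ℝ) ≤ t * L := le_mul_of_one_le_right ht0.le hL1
    by_cases hχ1 : χ = 1
    · rw [if_pos hχ1, hχ1, BV4_one, ← Complex.ofReal_natCast, ← Complex.ofReal_sub,
        Complex.norm_real, Real.norm_eq_abs]
      refine le_trans ?_ htL
      rw [abs_le]
      constructor <;> linarith
    · rw [if_neg hχ1, sub_zero]
      refine (norm_sum_le _ _).trans (le_trans ?_ (htriv.trans htL))
      refine sum_le_sum fun n _ => ?_
      rw [norm_mul, Complex.norm_real, Real.norm_of_nonneg vonMangoldt_nonneg]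
      exact mul_le_of_le_one_right vonMangoldt_nonneg (DirichletCharacter.norm_le_one _ _)
  · -- large `t`
    have htM : max x₁ x₂ ≤ t := by
      have h3 := hy₂ X hX2
      rw [← hL] at h3
      have h4 : 1 + max x₁ x₂ ^ 2 ≤ X / L ^ (A + 2 * B + 2) := by
        rw [le_div_iff₀ (by positivity)]
        calc (1 + max x₁ x₂ ^ 2) * L ^ (A + 2 * B + 2) ≤
              (1 + max x₁ x₂ ^ 2) * (1 / (1 + max x₁ x₂ ^ 2) * (X : ℝ)) := by gcongr
          _ = (X : ℝ) := by field_simp
      have h5 : max x₁ x₂ ≤ 1 + max x₁ x₂ ^ 2 := by nlinarith [sq_nonneg (max x₁ x₂ - 1)]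
      linarith
    have hlogtL : L / 2 ≤ Real.log t := by
      have h3 := hy₁ X hX1
      rw [← hL, one_mul] at h3
      have h4 : (L ^ (A + 2 * B + 2)) ^ 2 ≤ X := by rw [← pow_mul, mul_comm]; exact h3
      have h5 : √(X : ℝ) ≤ X / L ^ (A + 2 * B + 2) := by
        rw [le_div_iff₀ (by positivity)]
        have h6 : L ^ (A + 2 * B + 2) ≤ √(X : ℝ) := Real.le_sqrt_of_sq_le h4
        calc √(X : ℝ) * L ^ (A + 2 * B + 2) ≤ √(X : ℝ) * √(X : ℝ) := by gcongr
          _ = X := Real.mul_self_sqrt hX0.le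
      calc L / 2 = Real.log (√(X : ℝ)) := by rw [Real.log_sqrt hX0.le]
        _ ≤ Real.log t := Real.log_le_log (by positivity) (h5.trans hlarge)
    have hlogtp : 0 < Real.log t := by linarith [half_pos hL0]
    have hconv : ∀ C : ℝ, 0 ≤ C → 4 * (C * 2 ^ (A + 2 * B + 1)) ≤ L →
        C * t / Real.log t ^ (A + 2 * B + 1) ≤ 1 / 4 * (X / L ^ (A + 2 * B)) := by
      intro C hC hCL
      calc C * t / Real.log t ^ (A + 2 * B + 1) ≤ C * X / (L / 2) ^ (A + 2 * B + 1) := by gcongr
        _ = (C * 2 ^ (A + 2 * B + 1)) / L * (X / L ^ (A + 2 * B)) := by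
          rw [div_pow, pow_succ L]; field_simp
        _ ≤ 1 / 4 * (X / L ^ (A + 2 * B)) := by
          refine mul_le_mul_of_nonneg_right ?_ (by positivity)
          rw [div_le_iff₀ hL0]
          linarith
    have hN : ∑ n ∈ Ioc 0 t with ¬ Nat.Coprime n m, vonMangoldt n ≤
        1 / 4 * (X / L ^ (A + 2 * B)) := by
      refine (BV4_noncoprime m t hm h0).trans ?_
      have hlogm : Real.log m ≤ L := Real.log_le_log (by exact_mod_cast hm) (by exact_mod_cast hmX)
      have hlogm0 : 0 ≤ Real.log m := Real.log_natCast_nonneg m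
      calc 2 * Real.log m * (2 * Real.log t + 1) * Real.log t ≤ 2 * L * (2 * L + 1) * L := by gcongr
        _ ≤ 2 * L * (3 * L) * L := by gcongr; linarith
        _ = 6 * L ^ 3 := by ring
        _ ≤ 1 / 4 * (X / L ^ (A + 2 * B)) := by
          rw [← mul_div_assoc, le_div_iff₀ (by positivity)]
          have h3 := hy₃ X hX3
          rw [← hL] at h3
          calc 6 * L ^ 3 * L ^ (A + 2 * B) = 6 * L ^ (A + 2 * B + 3) := by ring
            _ ≤ 6 * (1 / 24 * X) := by linarith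
            _ = 1 / 4 * X := by ring
    have hE0 : 0 ≤ X / L ^ (A + 2 * B) := by positivity
    by_cases hχ1 : χ = 1
    · have h3 := h2 t ((le_max_right _ _).trans htM)
      rw [Nat.floor_natCast] at h3
      have h4 := h3.trans (hconv C₂ hC₂.le hLC2)
      rw [if_pos hχ1, hχ1, BV4_one, ← Complex.ofReal_natCast, ← Complex.ofReal_sub,
        Complex.norm_real, Real.norm_eq_abs]
      rw [abs_le] at h4 ⊢
      constructor <;> linarith [h4.1, h4.2]
    · rw [if_neg hχ1, sub_zero]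
      refine (BV4_prim m t χ).trans ?_
      have : NeZero m := ⟨hm.ne'⟩
      have hc0 : χ.conductor ≠ 0 := DirichletCharacter.conductor_ne_zero χ
      have hc1 : χ.conductor ≠ 1 := fun h =>
        hχ1 (DirichletCharacter.eq_one_iff_conductor_eq_one.mpr h)
      have hc2 : 2 ≤ χ.conductor := by omega
      have hcL : (χ.conductor : ℝ) ≤ Real.log t ^ (B + 1) := by
        calc (χ.conductor : ℝ) ≤ R := by exact_mod_cast hχ
          _ ≤ L ^ B := hRB
          _ = L ^ B * 1 := (mul_one _).symm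
          _ ≤ L ^ B * (L / 2 ^ (B + 1)) := by
            gcongr
            rw [le_div_iff₀ (by positivity)]
            linarith
          _ = (L / 2) ^ (B + 1) := by rw [div_pow]; ring
          _ ≤ Real.log t ^ (B + 1) := by gcongr
      have hne : χ.primitiveCharacter ≠ 1 := by
        intro h
        apply hχ1
        have h5 := χ.changeLevel_primitiveCharacter
        rw [h, map_one] at h5
        exact h5.symm
      have h3 := h1 t ((le_max_left _ _).trans htM) χ.conductor hc2 hcL χ.primitiveCharacter hne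
      rw [Nat.floor_natCast] at h3
      have h4 := h3.trans (hconv C₁ hC₁.le hLC1)
      linarith

end GD
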