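import Pool.Agent.helper65.GD.SpecD

set_option autoImplicit false

namespace Pool.Agent.GD

open Finset Metric Filter Topology

theorem REK_EE (p : ℕ) (τ : ℝ) (κ b : ℕ → ℂ) (q : ℕ) :
    (p : ℂ) * EE τ κ b q = DD p κ b q - ((q : ℂ) - p) * b q + τ * Complex.I * p * b q := by
  unfold EE DD
  ring

theorem REK (hREF : REF_stmt) : REK_stmt := by
  intro p N v y τ b m hp hA hb
  have h := hREF p N v y b m hp hA hb
  have hp0 : (p : ℂ) ≠ 0 := by
    have : p ≠ 0 := by omega
    exact_mod_cast this
  apply mul_left_cancel₀ hp0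
  have e1 := REK_EE p τ (mom v y) b (p + m)
  by_cases hm : m ≤ p
  · rw [if_pos hm] at h ⊢
    have e2 := congrArg (starRingEnd ℂ) (REK_EE p τ (mom v y) b (p - m))
    have hcast : ((p - m : ℕ) : ℂ) = (p : ℂ) - m := Nat.cast_sub hm
    have hbm : (starRingEnd ℂ) (b (p - m)) = b (p + m) := by
      rw [← hb.2.2 (p - m) (by omega)]
      congr 1
      omega
    rw [hcast] at e2
    simp only [map_mul, map_add, map_sub, Complex.conj_natCast, Complex.conj_ofReal, Complex.conj_I, hbm] at e2
    push_cast at e1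
    linear_combination e1 + e2 + h
  · rw [if_neg hm] at h ⊢
    have hb0 : b (p + m) = 0 := hb.2.1 _ (by omega)
    rw [hb0] at e1
    linear_combination e1 + h

end Pool.Agent.GD
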